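import Pool.Agent.K4H45.PC.Spec

namespace K4H97.PC
open Set K4H45.PC

theorem dot_self (z : ℂ) : dot z z = ‖z‖ ^ 2 := by
  rw [← Complex.normSq_eq_norm_sq, Complex.normSq_apply]
  rfl

theorem dot_le (z w : ℂ) : dot z w ≤ ‖z‖ * ‖w‖ := by
  have h : dot z w = ((starRingEnd ℂ z) * w).re := by
    simp [dot, Complex.mul_re]
  rw [h]
  calc ((starRingEnd ℂ z) * w).re ≤ ‖(starRingEnd ℂ z) * w‖ := Complex.re_le_norm _
    _ = ‖z‖ * ‖w‖ := by rw [norm_mul, Complex.norm_conj]

theorem norm_xx (u : ℝ) : ‖xx u‖ = 2 := by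
  unfold xx
  rw [norm_mul, Complex.norm_exp_ofReal_mul_I]
  norm_num

theorem xx_sub (u t : ℝ) : ‖xx u - xx t‖ ≤ 13 * |u - t| := by
  have h1 : xx u - xx t = xx t * (Complex.exp (Complex.I * ((2 * Real.pi * (u - t) : ℝ) : ℂ)) - 1) := by
    unfold xx
    have e : Complex.exp (((2 * Real.pi * t : ℝ) : ℂ) * Complex.I) *
        Complex.exp (Complex.I * ((2 * Real.pi * (u - t) : ℝ) : ℂ)) =
        Complex.exp (((2 * Real.pi * u : ℝ) : ℂ) * Complex.I) := by
      rw [← Complex.exp_add]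
      congr 1
      push_cast
      ring
    rw [← e]
    ring
  rw [h1, norm_mul, norm_xx]
  have h2 := Real.norm_exp_I_mul_ofReal_sub_one_le (x := 2 * Real.pi * (u - t))
  have h3 : ‖(2 * Real.pi * (u - t) : ℝ)‖ = 2 * Real.pi * |u - t| := by
    rw [Real.norm_eq_abs, abs_mul, abs_of_pos Real.two_pi_pos]
  rw [h3] at h2
  have h4 := Real.pi_lt_d2
  nlinarith [abs_nonneg (u - t)]

theorem lip : S_LIP := by
  intro K G hK hG u t
  have h1 : ∀ s, ‖G s‖ ≤ 1 := fun s => by
    have := hK.ball (hG.mem s)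
    rwa [Metric.mem_closedBall, dist_zero_right] at this
  have h2 : ‖G u - G t‖ ≤ ‖xx u - xx t‖ := by
    have a1 := hG.sup u (G t) (hG.mem t)
    have a2 := hG.sup t (G u) (hG.mem u)
    have a3 : dot (G u - G t) (G u - G t) ≤ dot (G u - G t) (xx u - xx t) := by
      simp only [dot, Complex.sub_re, Complex.sub_im] at *
      nlinarith
    rw [dot_self] at a3
    have a4 := a3.trans (dot_le _ _)
    rcases (norm_nonneg (G u - G t)).eq_or_lt with h | h
    · rw [← h]
      exact norm_nonneg _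
    · rw [sq] at a4
      exact le_of_mul_le_mul_left a4 h
  have h3 := xx_sub u t
  refine ⟨h2.trans h3, ?_, ?_, ?_⟩
  · calc ‖(xx u - G u) - (xx t - G t)‖ = ‖(xx u - xx t) - (G u - G t)‖ := by congr 1; ring
      _ ≤ ‖xx u - xx t‖ + ‖G u - G t‖ := norm_sub_le _ _
      _ ≤ 26 * |u - t| := by linarith [h2.trans h3]
  · have := norm_sub_norm_le (xx u) (G u)
    rw [norm_xx] at this
    linarith [h1 u]
  · have := norm_sub_le (xx u) (G u)
    rw [norm_xx] at this
    linarith [h1 u]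

theorem key (hL : S_LIP) : S_KEY := by
  intro K G hK hG u t
  obtain ⟨h1, h2, -, -⟩ := hL K G hK hG u t
  have a1 := hG.sup u (G t) (hG.mem t)
  have a2 := hG.sup t (G u) (hG.mem u)
  have e1 : dot (G u - G t) (xx u - G u) = - dot (G t - G u) (xx u - G u) := by
    simp only [dot, Complex.sub_re, Complex.sub_im]
    ring
  have e2 : dot (G u - G t) (xx u - G u) =
      dot (G u - G t) ((xx u - G u) - (xx t - G t)) + dot (G u - G t) (xx t - G t) := by
    simp only [dot, Complex.sub_re, Complex.sub_im]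
    ring
  refine ⟨by rw [e1]; linarith, ?_⟩
  rw [e2]
  have h3 := dot_le (G u - G t) ((xx u - G u) - (xx t - G t))
  have h4 : ‖G u - G t‖ * ‖(xx u - G u) - (xx t - G t)‖ ≤ (13 * |u - t|) * (26 * |u - t|) :=
    mul_le_mul h1 h2 (norm_nonneg _) (by positivity)
  have h5 : (13 * |u - t|) * (26 * |u - t|) = 338 * (u - t) ^ 2 := by
    rw [← sq_abs (u - t)]
    ring
  linarith

end K4H97.PC
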